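import Pool.Agent.Lib.MP_410da7_agA.Assembly

/-!
# MP_410da7_ag: smooth affine varieties

Let `X` be a smooth irreducible affine complex variety of dimension `n`, with coordinate ring `R`,
function field `K` and coordinate functions `x_1, ..., x_N` (any generators of `R`). Let `Xbar` be a
smooth compactification of `X` with simple normal crossings boundary `D` such that `x` extends to a
morphism to `ℙ^N`, and let `H` be the pull-back of the hyperplane at infinity. If the adjoint ring
`⊕_{m, e ≥ 0} H⁰(Xbar, m (K + D) + e H)` is finitely generated, then

  `X` is `𝔸¹`-uniruled if and only if `κ̄(X) = -∞`.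

(By Birkar, Cascini, Hacon and McKernan the adjoint ring of every smooth affine variety is finitely
generated; this is not used.)

The definitions are in `Pool.Agent.Lib.MP_410da7_ag.Defs` (`A1Uniruled`, `LogKodairaNegInf`, `dim`) and
`Pool.Agent.Lib.MP_410da7_agA.Statement` (`adjointRing`).

The proof (`Pool.Agent.Lib.MP_410da7_agA`): (A) the finitely generated adjoint ring gives a covering
family of curves on `Xbar` on which a divisor `m₀ (K + D) + e₀ H` with `m₀, e₀ ≥ 1` is trivial; (B) log
bend and break: after reduction modulo `p`, an elementary count of the deformations of the Frobenius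
twists of the generic curve which keep its contact with the boundary shows that the generic point of
`X` is on a nonconstant curve `𝔸¹ → X` of bounded degree; (C) back to characteristic `0` by
elimination.
-/

set_option autoImplicit false

namespace Pool.Agent.Results.MP_410da7_ag.AffineVarieties

open KaehlerDifferential Pool.Agent.Lib.MP_410da7_ag Pool.Agent.Lib.MP_410da7_agA

theorem result (R K : Type) [CommRing R] [IsDomain R] [Algebra ℂ R] [Algebra.Smooth ℂ R] [Field K]
    [Algebra R K] [IsFractionRing R K] [Algebra ℂ K] [IsScalarTower ℂ R K] {N : ℕ} (x : Fin N → R)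
    (hx : Algebra.adjoin ℂ (Set.range x) = ⊤) (Ψ : Ω[K⁄ℂ] [⋀^Fin (dim R)]→ₗ[K] K) (hΨ : Ψ ≠ 0)
    (hfg : (adjointRing R Ψ x).FG) : A1Uniruled R ↔ LogKodairaNegInf R K :=
  affine_of_h3 h3All R K x hx Ψ hΨ hfg

end Pool.Agent.Results.MP_410da7_ag.AffineVarieties
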