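import Pool.Agent.Lib.MP_410da7_ag.Moved.FourLines
import Pool.Agent.Lib.MP_410da7_agNL.QsN
import Pool.Agent.Lib.MP_410da7_agNL.PermN
import Pool.Agent.Lib.MP_410da7_agNL.ScN
import Pool.Agent.Lib.MP_410da7_agNL.ExN
import Pool.Agent.Lib.MP_410da7_agNL.ClN
import Pool.Agent.Lib.MP_410da7_agNL.Uni
import Pool.Agent.Lib.MP_410da7_agNL.FNL
import Pool.Agent.Lib.MP_410da7_agL5.Val
import Pool.Agent.Lib.MP_410da7_agL5.Upu
import Pool.Agent.Lib.MP_410da7_agL5.Unx
import Pool.Agent.Lib.MP_410da7_agL5.Idn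
import Pool.Agent.Lib.MP_410da7_agL5.Eqg
import Pool.Agent.Lib.MP_410da7_agL5.Dig
import Pool.Agent.Lib.MP_410da7_agL5.Spc
import Pool.Agent.Lib.MP_410da7_agL5.Fls
import Pool.Agent.Lib.MP_410da7_agL5.Cur
import Pool.Agent.Lib.MP_410da7_agL5.Stl
import Pool.Agent.Lib.MP_410da7_agL5.Trl
import Pool.Agent.Lib.MP_410da7_agL5.Kel
import Pool.Agent.Lib.MP_410da7_agL5.Nrm
import Pool.Agent.Lib.MP_410da7_agL5.Fiv

/-!
# MP_410da7_ag: `N` lines in general position

Let `N = r + 3`, let `M` be a complex `r × N` matrix all of whose maximal minors are different from zero, let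
`a₁, …, a_N ≥ 2`, let `V ⊆ 𝔸^N` be given by the `r` equations `∑_i M_{k i} x_i^(a_i) = 0`, and `X = V ∖ {0}`, a smooth
quasi-affine threefold. Then the following are equivalent: `X` is `𝔸¹`-uniruled; `κ̄(X) = -∞`;
`∑ 1/a_i > r`.

The kernel of `M` is a vector space of dimension three, the coordinates of `ℂ^N` define `N` lines `L_i` in general
position in the projective plane `ℙ(ker M)`, and every arrangement of `N ≥ 3` lines in general position is of this
form. The quotient of `X` by the group of all `z ∈ (ℂˣ)^N` with `z₁^(a₁) = ⋯ = z_N^(a_N)` is the orbifold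
`(ℙ², ∑ (1 - 1/a_i) L_i)`; the third condition says that `-(K + ∑ (1 - 1/a_i) L_i)` is ample.

The definitions are in `Pool.Agent.Lib.MP_410da7_agNL.Defs` (`linPoly`, `GenPos`),
`Pool.Agent.Lib.MP_410da7_agP.Defs` (`IsFunctionField`, `charts`),
`Pool.Agent.Lib.MP_410da7_ag.T1Defs` (`A1UniruledOn`, `LogKodairaNegInfOn`) and
`Pool.Agent.Lib.MP_410da7_ag.Defs` (`logDiff`, `regDiff`).
-/

set_option autoImplicit false

namespace Pool.Agent.Results.MP_410da7_ag.GeneralLines

open Pool.Agent.PC Pool.Agent.Lib.MP_410da7_ag Pool.Agent.BP Pool.Agent.NL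

/-- Five lines with the multiplicities `2, 2, 2, 3, m`, `m = 3, 4, 5`. -/
theorem five : StmtFive := by
  have hVal := L5.stmtVal
  have hIdn := L5.stmtIdn
  exact L5.stmtFiv stmtDim stmtQsN (L5.stmtNrm stmtScN)
    (L5.stmtKel stmtGn stmtTwo stmtPw stmtAlg (L5.stmtUpu hVal) (L5.stmtUnx hVal) hIdn
      (L5.stmtEqg hIdn) (L5.stmtDig stmtInd (stmtSpread stmtCut stmtSpe)) (L5.stmtSpc hIdn)
      L5.stmtFls L5.stmtCur L5.stmtStl L5.stmtTrl)

theorem result {N r : ℕ} (hN : N = r + 3) (M : Matrix (Fin r) (Fin N) ℂ) (hM : GenPos M)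
    (a : Fin N → ℕ) (ha : ∀ i, 2 ≤ a i) {K : Type} [Field K] [Algebra ℂ K] {x : Fin N → K}
    (hx : IsFunctionField (linPoly M a) x) :
    List.TFAE [A1UniruledOn (charts x), LogKodairaNegInfOn (charts x) 3,
      (r : ℚ) < ∑ i, 1 / (a i : ℚ)] :=
  stmtFNL stmtDim (stmtKod stmtDim (stmtVal stmtNul)) stmtQsN
    (stmtUni stmtQsN stmtPrN stmtScN stmtExN stmtClN Moved.FourLines.two_le five)
    N r M a hN hM ha K x hx

end Pool.Agent.Results.MP_410da7_ag.GeneralLines
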