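import Pool.Agent.Lib.MP_410da7_agT.AllT

/-!
# MP_410da7_ag: boundaries which are nonnegative on their rational curves

Let `Xbar ⊆ ℙ^M` be a smooth projective complex variety, `H` an effective divisor on `Xbar` whose support
`D` has simple normal crossings (`D = ∅` is allowed), and `X = Xbar ∖ D`. Let `A` be the hyperplane class.
Suppose that `H · E ≥ 0` for all the rational curves `E` contained in `D`. The following are equivalent:

* `X` is `𝔸¹`-uniruled;
* `K + D` is not pseudo-effective;
* there is a covering family of curves on `Xbar` on which `K + D` is negative.

If the adjoint ring `⊕_{m, e ≥ 0} H⁰(Xbar, m (K + D) + e A)` is finitely generated, they are also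
equivalent to `κ̄(X) = -∞`.

The hypothesis on `H` holds if `H` is nef (`nonnegOnRat_of_isNef` in `MP_410da7_agT.NefRat`), and if `D`
does not contain rational curves. By Hironaka's theorem (not used here) all smooth affine varieties, all
smooth projective varieties, and all smooth varieties which are projective over an affine variety have such
compactifications.

The definitions are in `Pool.Agent.Lib.MP_410da7_agT.Statement4` (`RatCurve`, `NonnegOnRat`, `BiH`),
`Pool.Agent.Lib.MP_410da7_agB.Final` (`HasNegFamily`) and `Pool.Agent.Lib.MP_410da7_agB.Statement3` (the
others). The function field `K` of `Xbar` is generated by the homogeneous coordinates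
`Y_0 = 1, Y_1, ..., Y_M`, and `H` is given by homogeneous polynomials `G_0, ..., G_s` of degree
`d₀ ≥ 1` whose restrictions to `Xbar` generate the ideal of `H`.

The proof. (a) If `K + D` is not pseudo-effective there is a negative covering family of curves,
complete intersections of members of a linear system which approximates the positive part of
`m (K + D) + e A` (`Pool.Agent.Lib.MP_410da7_agN`; the geometry is in `MP_410da7_agB`, `HC` to `HF`).
(b) Embed `Xbar` by `(d₀ + 1) A`, using all the monomials of degree `d₀ + 1` in the `Y_m` and the
products `G_j Y_m`; the latter are the coordinates in `tt`, and generate the ideal of `H`. After reduction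
modulo `p` the Frobenius twists of the generic curve of the family have deformations which fix many points
and keep the contact with `D` (`SpecE`, `MP_410da7_agB/SpecF`). (c) The family of these deformations over a
valued field has bubbles at one of the fixed points. Consider the first bubble, and the common zeros
`g` of all its coordinates and `g'` of its coordinates in `tt` (`SpecG`, `Split`): if `g'` divides `g`
the bubble is a rational curve through the fixed point which meets `D` at most at one place. Otherwise
there is a point which is a zero of `g'` of greater multiplicity than of `g`; in a tree of discs around this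
point (`Tree`; it is finite because the multiplicities decrease) we find a component `E` whose degree with
respect to the coordinates in `tt` is greater than with respect to all the coordinates. (d) Back to
characteristic `0` (`SpecE`, `CT`) we have a rational curve through the generic point which meets `D` at
most at one place, and then a covering family of curves `𝔸¹ → X`, or a rational curve `E` on `Xbar` whose
degree with respect to `(d₀ + 1) A - H` is greater than with respect to `(d₀ + 1) A`, so that
`H · E < 0`, and `E` is contained in `D` (`SpecH`). (e) Conversely an `𝔸¹`-uniruled `X` has no sections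
of `m (K + D) + e A` for `e` small against `m` (`MP_410da7_agB.HH`).
-/

set_option autoImplicit false

namespace Pool.Agent.Results.MP_410da7_ag.NonnegativeBoundary

open MvPolynomial KaehlerDifferential Pool.Agent.Lib.MP_410da7_agB Pool.Agent.Lib.MP_410da7_agT

theorem result {K : Type} [Field K] [Algebra ℂ K] {n M s d₀ : ℕ} (Y : Fin (M + 1) → K)
    (G : Fin (s + 1) → MvPolynomial (Fin (M + 1)) ℂ) (Ψ : Ω[K⁄ℂ] [⋀^Fin n]→ₗ[K] K) (hY : Y 0 = 1)
    (hgen : IntermediateField.adjoin ℂ (Set.range Y) = ⊤) (hn : Algebra.trdeg ℂ K = n)
    (hΨ : Ψ ≠ 0) (hd : 1 ≤ d₀) (hG : ∀ j, (G j).IsHomogeneous d₀) (hs : LogSmoothPair n Y G)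
    (hH : NonnegOnRat d₀ Y G) :
    List.TFAE [A1UniruledCompl n Y G, PairNotPseff d₀ Y G Ψ, HasNegFamily Y G Ψ] ∧
    ((pairAdjointRing d₀ Y G Ψ).FG → (A1UniruledCompl n Y G ↔ PairKodairaNegInf d₀ Y G Ψ)) :=
  (t2Final t2All Y G Ψ hY hgen hn hΨ hd hG hs).2 hH

end Pool.Agent.Results.MP_410da7_ag.NonnegativeBoundary
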