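import Pool.Agent.Lib.MP_410da7_ag.T1Main

/-!
# MP_410da7_ag: `𝔸¹`-uniruledness and `κ̄ = -∞` for torus actions of complexity one

Let `X` be a complex variety of dimension `n + 1`, with arbitrary singularities and not necessarily
affine or complete, with an effective action of the torus `(ℂˣ)^n`. Then the following are
equivalent:

* `X` is `𝔸¹`-uniruled;
* `κ̄(X) = -∞`;
* the twelfth logarithmic plurigenus of `X` vanishes.

Here `X` is given by its function field `K`, with the action `ρ` of the torus on `K`, and by a covering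
by invariant affine open subsets `Spec (U i)`, with coordinate rings `U i ⊆ K` (by Sumihiro's theorem
there is such a covering for every normal variety `X` with a torus action). The definitions
(`A1UniruledOn`, `LogKodairaNegInfOn`, `LogPlurigenusZeroOn`, `IsTorusInvariant`) are in
`Pool.Agent.Lib.MP_410da7_ag.T1Defs`; `κ̄` of a singular variety is `κ̄` of a resolution.

The implication from `𝔸¹`-uniruled to `κ̄ = -∞` is known; it is proved here for all varieties
(`logKodairaNegInfOn_of_a1UniruledOn` in `T1Neg`).
-/

set_option autoImplicit false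

namespace Pool.Agent.Results.MP_410da7_ag.TorusComplexityOne

open Pool.Agent.Lib.MP_410da7_ag

theorem result {K : Type} [Field K] [Algebra ℂ K] {n : ℕ}
    (hd : Algebra.trdeg ℂ K = ((n + 1 : ℕ) : Cardinal))
    (ρ : (Fin n → ℂˣ) →* (K ≃ₐ[ℂ] K)) (hρ : Function.Injective ρ)
    {ι : Type} [Nonempty ι] (U : ι → Subalgebra ℂ K) (hfg : ∀ i, (U i).FG)
    (hfrac : ∀ i, IsFractionRing (U i) K) (hinv : ∀ i, IsTorusInvariant ρ (U i)) :
    List.TFAE [A1UniruledOn U, LogKodairaNegInfOn U (n + 1), LogPlurigenusZeroOn U (n + 1) 12] := by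
  tfae_have 1 → 2 := fun h => logKodairaNegInfOn_of_a1UniruledOn hd U ((a1UniruledOn_iff U).1 h)
  tfae_have 2 → 3 := fun h => h 12 (by norm_num)
  tfae_have 3 → 1 := t1_main hd ρ hρ U hfg hfrac hinv
  tfae_finish

end Pool.Agent.Results.MP_410da7_ag.TorusComplexityOne
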